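import Mathlib
import Pool.Agent.KS6_5.Arc.Bing

set_option autoImplicit false

namespace Pool.Agent.Results.MP_3a0c72_gt.ProductsContainingArcs

universe u v

open Topology

/-- Every continuous self-map of `X` has a fixed point. -/
def FPP (X : Type u) [TopologicalSpace X] : Prop := ∀ f : X → X, Continuous f → ∃ x, f x = x

/-- Covering dimension at most one: every finite open cover has a finite open refinement no three
different members of which have a common point. -/
def DimLeOne (X : Type u) [TopologicalSpace X] : Prop :=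
  ∀ (n : ℕ) (U : Fin n → Set X), (∀ i, IsOpen (U i)) → (⋃ i, U i) = Set.univ →
    ∃ (m : ℕ) (V : Fin m → Set X), (∀ j, IsOpen (V j)) ∧ (⋃ j, V j) = Set.univ ∧
      (∀ j, ∃ i, V j ⊆ U i) ∧
      (∀ (x : X) (a b c : Fin m), x ∈ V a → x ∈ V b → x ∈ V c → a = b ∨ a = c ∨ b = c)

/-- `X` contains an arc. -/
def HasArc (X : Type u) [TopologicalSpace X] : Prop := ∃ e : unitInterval → X, IsEmbedding e

theorem result :
    ∃ (K : Type) (_ : MetricSpace K), CompactSpace K ∧ ConnectedSpace K ∧ DimLeOne K ∧ FPP K ∧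
      HasArc K ∧
      (∀ (Y : Type v) [TopologicalSpace Y] [T35Space Y], HasArc Y → ¬ FPP (K × Y)) ∧
      (∀ n : ℕ, 2 ≤ n → ¬ FPP (Fin n → K)) := by
  obtain ⟨K, i1, i2, i3, h1, h2, h3, h4, h5⟩ := Pool.Agent.KS6_5.Arc.main.{v}
  refine ⟨K, i1, i2, i3, h1, h2, h3, ?_, ?_⟩
  · rintro Y _ _ ⟨e, he⟩ h
    obtain ⟨g, hg, hne⟩ := h4 Y e he
    obtain ⟨x, hx⟩ := h g hg
    exact hne x hx
  · intro n hn h
    obtain ⟨g, hg, hne⟩ := h5 n hn
    obtain ⟨x, hx⟩ := h g hg
    exact hne x hx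

end Pool.Agent.Results.MP_3a0c72_gt.ProductsContainingArcs
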